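import Mathlib

set_option autoImplicit false
set_option linter.unusedSectionVars false

/-!
# The toppling game: `T_max(G)` is even and `T_min(G)` is odd unless `G` is a tree

Under optimal play the last token is always placed by Min: as long as the stable configuration is not the full
one (`deg v - 1` tokens at every `v`) Max has a move after which all is stable, and one turn before the full
configuration is reached the configuration is full but for one token missing at some `w`; if Min is to move then, he puts
the token on a vertex `v` such that `v - w` is not in the image of the Laplacian (one of the two ends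
of an edge of a cycle will do), and the topplings never stop.
-/

namespace Pool.Agent.Results.MP_424b19_co.ParityOfTopplingGame

open Finset

variable {V : Type*} [Fintype V] [DecidableEq V] (G : SimpleGraph V) [DecidableRel G.Adj]

/-- Toppling a ready vertex `v` (one with at least `deg v` tokens): one of its tokens goes to each neighbour. -/
def Topple (c c' : V → ℕ) : Prop :=
  ∃ v, G.degree v ≤ c v ∧
    ∀ u, c' u = (if u = v then c u - G.degree v else c u) + (if G.Adj v u then 1 else 0)

/-- The toppling phase which starts at `c` can stop, at `c'`: some sequence of topplings leads from `c` to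
`c'`, and no vertex is ready in `c'`. -/
def Stops (c c' : V → ℕ) : Prop :=
  Relation.ReflTransGen (Topple G) c c' ∧ ∀ v, c' v < G.degree v

/-- One new token on the vertex `v`. -/
def put (c : V → ℕ) (v : V) : V → ℕ := fun u => if u = v then c u + 1 else c u

/-- Max can make sure that there are at least `k` more turns when the configuration is `c` and the
next turn is Max's (`b = true`) or Min's (`b = false`). -/
def AtLeast : ℕ → Bool → (V → ℕ) → Prop
  | 0, _, _ => True
  | k + 1, true, c => ∃ v, k = 0 ∨ ∃ c', Stops G (put c v) c' ∧ AtLeast k false c'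
  | k + 1, false, c => ∀ v, k = 0 ∨ ∃ c', Stops G (put c v) c' ∧ AtLeast k true c'

/-- Min can make sure that there are at most `k` more turns when the configuration is `c` and the
next turn is Max's (`b = true`) or Min's (`b = false`). -/
def AtMost : ℕ → Bool → (V → ℕ) → Prop
  | 0, _, _ => False
  | k + 1, true, c => ∀ v, ∀ c', Stops G (put c v) c' → AtMost k false c'
  | k + 1, false, c => ∃ v, ∀ c', Stops G (put c v) c' → AtMost k true c'

/-- `n` is the value of the toppling game on `G`, started by Max (`b = true`) or by Min (`b = false`) with no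
tokens: Max can make sure that there are at least `n` turns, and Min that there are at most `n`. -/
def IsValue (b : Bool) (n : ℕ) : Prop :=
  AtLeast G n b (fun _ => 0) ∧ AtMost G n b (fun _ => 0)

/-! ### Topplings -/

/-- the Laplacian -/
def lap (f : V → ℤ) (u : V) : ℤ := ∑ w, if G.Adj u w then f u - f w else 0

lemma lap_add (f g : V → ℤ) (u : V) : lap G (fun x => f x + g x) u = lap G f u + lap G g u := by
  unfold lap
  rw [← sum_add_distrib]
  refine sum_congr rfl fun w _ => ?_
  split_ifs <;> ring

lemma lap_neg (f : V → ℤ) (u : V) : lap G (fun x => - f x) u = - lap G f u := by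
  unfold lap
  rw [← sum_neg_distrib]
  refine sum_congr rfl fun w _ => ?_
  split_ifs <;> ring

lemma lap_sum (f : V → ℤ) : ∑ u, lap G f u = 0 := by
  have h : ∑ u, lap G f u = - ∑ u, lap G f u := by
    conv_rhs => unfold lap
    rw [sum_comm, ← sum_neg_distrib]
    refine sum_congr rfl fun u _ => ?_
    unfold lap
    rw [← sum_neg_distrib]
    refine sum_congr rfl fun w _ => ?_
    by_cases h : G.Adj u w
    · rw [if_pos h, if_pos h.symm]; ring
    · rw [if_neg h, if_neg (fun h' => h h'.symm)]; ring
  linarith

lemma lap_single (v u : V) :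
    lap G (fun x => if x = v then 1 else 0) u =
      (if u = v then (G.degree v : ℤ) else 0) - (if G.Adj v u then 1 else 0) := by
  unfold lap
  have h : ∀ w, (if G.Adj u w then ((if u = v then (1:ℤ) else 0) - if w = v then 1 else 0) else 0) =
      (if u = v then (if G.Adj u w then (1:ℤ) else 0) else 0) -
        (if w = v then (if G.Adj u w then (1:ℤ) else 0) else 0) := by
    intro w
    split_ifs <;> simp
  rw [sum_congr rfl fun w _ => h w, sum_sub_distrib]
  congr 1
  · split_ifs with huv
    · subst huv
      rw [sum_boole]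
      congr 1
      rw [← G.card_neighborFinset_eq_degree]
      congr 1
      ext w
      simp
    · simp
  · rw [sum_ite_eq' univ v]
    simp only [mem_univ, if_true]
    by_cases h : G.Adj u v
    · rw [if_pos h, if_pos h.symm]
    · rw [if_neg h, if_neg (fun h' => h h'.symm)]

lemma topple_lap {c c' : V → ℕ} (h : Topple G c c') :
    ∃ f : V → ℤ, ∀ u, (c' u : ℤ) = c u - lap G f u := by
  obtain ⟨v, hv, h⟩ := h
  refine ⟨fun x => if x = v then 1 else 0, fun u => ?_⟩
  rw [lap_single, h u]
  by_cases huv : u = v
  · subst huv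
    simp only [if_true]
    push_cast [hv]
    ring
  · simp only [if_neg huv]
    push_cast
    ring

lemma stops_lap {c c' : V → ℕ} (h : Relation.ReflTransGen (Topple G) c c') :
    ∃ f : V → ℤ, ∀ u, (c' u : ℤ) = c u - lap G f u := by
  induction h with
  | refl => exact ⟨fun _ => 0, fun u => by simp [lap]⟩
  | tail _ h2 ih =>
    obtain ⟨f, hf⟩ := ih
    obtain ⟨g, hg⟩ := topple_lap G h2
    refine ⟨fun x => f x + g x, fun u => ?_⟩
    rw [lap_add, hg u, hf u]
    ring

lemma stops_sum {c c' : V → ℕ} (h : Relation.ReflTransGen (Topple G) c c') : ∑ u, c' u = ∑ u, c u := by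
  obtain ⟨f, hf⟩ := stops_lap G h
  have h1 : ((∑ u, c' u : ℕ) : ℤ) = (∑ u, c u : ℕ) := by
    push_cast
    rw [sum_congr rfl fun u _ => hf u, sum_sub_distrib, lap_sum, sub_zero]
  exact_mod_cast h1

lemma put_sum (c : V → ℕ) (v : V) : ∑ u, put c v u = ∑ u, c u + 1 := by
  unfold put
  have : ∀ u, (if u = v then c u + 1 else c u) = c u + (if u = v then 1 else 0) := by
    intro u; split_ifs <;> rfl
  rw [sum_congr rfl fun u _ => this u, sum_add_distrib]
  simp

/-- the result of the toppling phase does not depend on the order of the topplings -/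
lemma stops_unique {c c₁ c₂ : V → ℕ} (h₁ : Stops G c c₁) (h₂ : Stops G c c₂) : c₁ = c₂ := by
  have key : ∀ a b d : V → ℕ, Topple G a b → Topple G a d →
      ∃ e, Relation.ReflGen (Topple G) b e ∧ Relation.ReflTransGen (Topple G) d e := by
    intro a b d hb hd
    obtain ⟨v, hv, hb⟩ := hb
    obtain ⟨w, hw, hd⟩ := hd
    by_cases hvw : v = w
    · subst hvw
      have : b = d := by ext u; rw [hb u, hd u]
      subst this
      exact ⟨b, Relation.ReflGen.refl, Relation.ReflTransGen.refl⟩
    · refine ⟨fun u => (if u = w then b u - G.degree w else b u) + (if G.Adj w u then 1 else 0),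
        Relation.ReflGen.single ⟨w, ?_, fun u => rfl⟩,
        Relation.ReflTransGen.single ⟨v, ?_, fun u => ?_⟩⟩
      · rw [hb w, if_neg (fun h => hvw h.symm)]
        omega
      · rw [hd v, if_neg hvw]
        omega
      · beta_reduce
        rw [hb u, hd u]
        by_cases h1 : u = v
        · have h2 : u ≠ w := fun h => hvw (h1.symm.trans h)
          subst h1
          simp only [if_true, if_neg h2, SimpleGraph.irrefl, if_false]
          omega
        · by_cases h2 : u = w
          · subst h2
            simp only [if_true, if_neg h1, SimpleGraph.irrefl, if_false]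
            omega
          · simp only [if_neg h1, if_neg h2]
            omega
  have nostep : ∀ {a b : V → ℕ}, (∀ v, a v < G.degree v) → Relation.ReflTransGen (Topple G) a b → a = b := by
    intro a b ha hab
    rcases Relation.ReflTransGen.cases_head hab with h | ⟨d, ⟨v, hv, _⟩, _⟩
    · exact h
    · exact absurd hv (not_le.2 (ha v))
  obtain ⟨e, he1, he2⟩ := Relation.church_rosser key h₁.1 h₂.1
  rw [nostep h₁.2 he1, nostep h₂.2 he2]

/-! ### The values -/

lemma atLeast_mono (k : ℕ) : ∀ (b : Bool) (c : V → ℕ), AtLeast G (k + 1) b c → AtLeast G k b c := by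
  induction k with
  | zero => intro b c _; trivial
  | succ k ih =>
    intro b c h
    cases b
    · intro v
      rcases h v with h | ⟨c', h1, h2⟩
      · omega
      · exact Or.inr ⟨c', h1, ih _ _ h2⟩
    · obtain ⟨v, h⟩ := h
      refine ⟨v, ?_⟩
      rcases h with h | ⟨c', h1, h2⟩
      · omega
      · exact Or.inr ⟨c', h1, ih _ _ h2⟩

lemma atLeast_le {k l : ℕ} (hkl : k ≤ l) {b : Bool} {c : V → ℕ} (h : AtLeast G l b c) : AtLeast G k b c := by
  induction l, hkl using Nat.le_induction with
  | base => exact h
  | succ l _ ih => exact ih (atLeast_mono G l b c h)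

lemma atMost_mono (k : ℕ) : ∀ (b : Bool) (c : V → ℕ), AtMost G k b c → AtMost G (k + 1) b c := by
  induction k with
  | zero => intro b c h; exact h.elim
  | succ k ih =>
    intro b c h
    cases b
    · obtain ⟨v, h⟩ := h
      exact ⟨v, fun c' h1 => ih _ _ (h c' h1)⟩
    · exact fun v c' h1 => ih _ _ (h v c' h1)

lemma atMost_le {k l : ℕ} (hkl : k ≤ l) {b : Bool} {c : V → ℕ} (h : AtMost G k b c) : AtMost G l b c := by
  induction l, hkl using Nat.le_induction with
  | base => exact h
  | succ l _ ih => exact atMost_mono G l b c ih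

lemma not_both (k : ℕ) : ∀ (b : Bool) (c : V → ℕ), AtMost G k b c → ¬ AtLeast G (k + 1) b c := by
  induction k with
  | zero => intro b c h; exact h.elim
  | succ k ih =>
    intro b c h h'
    cases b
    · obtain ⟨v, h⟩ := h
      rcases h' v with h' | ⟨c', h1, h2⟩
      · omega
      · exact ih _ _ (h c' h1) h2
    · obtain ⟨v, h'⟩ := h'
      rcases h' with h' | ⟨c', h1, h2⟩
      · omega
      · exact ih _ _ (h v c' h1) h2

lemma value_unique {a n : ℕ} {b : Bool} {c : V → ℕ} (h1 : AtLeast G a b c) (h2 : AtMost G a b c)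
    (h3 : AtLeast G n b c) (h4 : AtMost G n b c) : n = a := by
  rcases lt_trichotomy n a with h | h | h
  · exact absurd (atLeast_le G (by omega : n + 1 ≤ a) h1) (not_both G n b c h4)
  · exact h
  · exact absurd (atLeast_le G (by omega : a + 1 ≤ n) h3) (not_both G a b c h2)

/-! ### The ends of an edge of a cycle are not equivalent -/

lemma not_equiv {x y : V} (hxy : G.Adj x y) (hc : G.Connected)
    (hb : ∃ p : G.Walk x y, s(x, y) ∉ p.edges) (f : V → ℤ)
    (hf : ∀ u, lap G f u = (if u = x then 1 else 0) - (if u = y then 1 else 0)) : False := by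
  obtain ⟨p, hp⟩ := hb
  have hne : x ≠ y := hxy.ne
  have : Nonempty V := ⟨x⟩
  obtain ⟨z, hz⟩ := Finite.exists_max f
  -- `S` : the set where `f` is maximal
  set S : Finset V := univ.filter fun u => f u = f z with hS
  let F : V × V → ℤ := fun q => if q.1 ∈ S ∧ G.Adj q.1 q.2 then f q.1 - f q.2 else 0
  have hF0 : ∀ q, 0 ≤ F q := by
    intro q
    simp only [F]
    split_ifs with h
    · have h1 : f q.1 = f z := (mem_filter.1 h.1).2
      have := hz q.2
      omega
    · exact le_refl _
  have hF1 : ∀ u w, u ∈ S → w ∉ S → G.Adj u w → 1 ≤ F (u, w) := by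
    intro u w hu hw ha
    simp only [F, if_pos (show u ∈ S ∧ G.Adj u w from ⟨hu, ha⟩)]
    have h1 : f u = f z := (mem_filter.1 hu).2
    have h2 : f w ≠ f z := fun h => hw (mem_filter.2 ⟨mem_univ _, h⟩)
    have := hz w
    omega
  have hsum : ∑ q, F q = (if x ∈ S then 1 else 0) - (if y ∈ S then 1 else 0) := by
    have h1 : ∑ q, F q = ∑ u, (if u ∈ S then lap G f u else 0) := by
      rw [Fintype.sum_prod_type]
      refine sum_congr rfl fun u _ => ?_
      by_cases hu : u ∈ S
      · simp only [F, hu, true_and, if_true]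
        rfl
      · simp only [F, hu, false_and, if_false]
        simp
    rw [h1]
    have h2 : ∀ u, (if u ∈ S then lap G f u else 0) =
        (if u = x then (if x ∈ S then 1 else 0) else 0) - (if u = y then (if y ∈ S then (1:ℤ) else 0) else 0) := by
      intro u
      by_cases hu : u ∈ S
      · rw [if_pos hu, hf u]
        congr 1
        · by_cases h : u = x
          · subst h; simp [hu]
          · simp [h]
        · by_cases h : u = y
          · subst h; simp [hu]
          · simp [h]
      · rw [if_neg hu]
        by_cases h : u = x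
        · subst h
          have h' : ¬ u = y := hne
          simp [hu, h']
        · by_cases h' : u = y
          · subst h'
            simp [hu, h]
          · simp [h, h']
    rw [sum_congr rfl fun u _ => h2 u, sum_sub_distrib]
    simp
  -- some edge leaves `S`
  have hzS : z ∈ S := mem_filter.2 ⟨mem_univ _, rfl⟩
  have hout : ∃ w, w ∉ S := by
    by_contra hcon
    push Not at hcon
    have hconst : ∀ u, f u = f z := fun u => (mem_filter.1 (hcon u)).2
    have h1 := hf x
    have h2 : lap G f x = 0 := by
      unfold lap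
      refine sum_eq_zero fun w _ => ?_
      rw [hconst x, hconst w]
      simp
    rw [h2] at h1
    simp [hne] at h1
  obtain ⟨w, hw⟩ := hout
  obtain ⟨r⟩ := hc.preconnected z w
  obtain ⟨d, _, hd1, hd2⟩ := r.exists_boundary_dart (↑S : Set V) (by simpa using hzS) (by simpa using hw)
  have hd1' : d.fst ∈ S := by simpa using hd1
  have hd2' : d.snd ∉ S := by simpa using hd2
  have hge : 1 ≤ ∑ q, F q :=
    (hF1 _ _ hd1' hd2' d.adj).trans (single_le_sum (fun q _ => hF0 q) (mem_univ (d.fst, d.snd)))
  have hxS : x ∈ S := by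
    by_contra h
    rw [hsum, if_neg h] at hge
    split_ifs at hge <;> omega
  have hyS : y ∉ S := by
    intro h
    rw [hsum, if_pos hxS, if_pos h] at hge
    omega
  -- a second edge leaves `S`
  obtain ⟨e, he, he1, he2⟩ := p.exists_boundary_dart (↑S : Set V) (by simpa using hxS) (by simpa using hyS)
  have he1' : e.fst ∈ S := by simpa using he1
  have he2' : e.snd ∉ S := by simpa using he2
  have hne2 : ((e.fst, e.snd) : V × V) ≠ (x, y) := by
    intro h
    apply hp
    have h1 : e.edge ∈ p.edges := List.mem_map_of_mem (f := SimpleGraph.Dart.edge) he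
    have h2 : e.edge = s(e.fst, e.snd) := rfl
    rw [h2, (Prod.ext_iff.1 h).1, (Prod.ext_iff.1 h).2] at h1
    exact h1
  have h2le : F (e.fst, e.snd) + F (x, y) ≤ ∑ q, F q := by
    rw [← sum_pair hne2]
    exact sum_le_sum_of_subset_of_nonneg (subset_univ _) fun q _ _ => hF0 q
  have h3 := hF1 _ _ he1' he2' e.adj
  have h4 := hF1 _ _ hxS hyS hxy
  rw [hsum, if_pos hxS, if_neg hyS] at h2le
  omega

lemma exists_cycle_edge (hc : G.Connected) (hT : ¬ G.IsTree) :
    ∃ x y, G.Adj x y ∧ ∃ p : G.Walk x y, s(x, y) ∉ p.edges := by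
  have hA : ¬ G.IsAcyclic := fun h => hT ⟨hc, h⟩
  rw [SimpleGraph.isAcyclic_iff_forall_adj_isBridge] at hA
  push Not at hA
  obtain ⟨x, y, hxy, hb⟩ := hA
  rw [SimpleGraph.isBridge_iff_forall_walk_mem_edges] at hb
  push Not at hb
  exact ⟨x, y, hxy, hb⟩

/-- For every vertex `w` there is a vertex not equivalent to it. -/
lemma exists_not_equiv (hc : G.Connected) (hT : ¬ G.IsTree) (w : V) :
    ∃ v, ∀ f : V → ℤ, ¬ ∀ u, lap G f u = (if u = v then 1 else 0) - (if u = w then 1 else 0) := by
  obtain ⟨x, y, hxy, hp⟩ := exists_cycle_edge G hc hT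
  by_contra hcon
  push Not at hcon
  obtain ⟨f, hf⟩ := hcon x
  obtain ⟨g, hg⟩ := hcon y
  refine not_equiv G hxy hc hp (fun u => f u + - g u) fun u => ?_
  rw [lap_add G f (fun u => - g u) u, lap_neg, hf u, hg u]
  ring

/-! ### The game -/

/-- If one token is missing to the full configuration, some token ends the game. -/
lemma can_end (hc : G.Connected) (hT : ¬ G.IsTree) {c : V → ℕ} (hst : ∀ v, c v < G.degree v)
    (h1 : ∑ v, c v + 1 = ∑ v, (G.degree v - 1)) : ∃ v, ∀ c', ¬ Stops G (put c v) c' := by
  have hle : ∀ v, c v ≤ G.degree v - 1 := fun v => by have := hst v; omega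
  have hex : ∃ w, c w < G.degree w - 1 := by
    by_contra hcon
    push Not at hcon
    have : ∑ v, (G.degree v - 1) ≤ ∑ v, c v := sum_le_sum fun v _ => hcon v
    omega
  obtain ⟨w, hw⟩ := hex
  have hput : ∀ u, put c w u = G.degree u - 1 := by
    have hle' : ∀ u ∈ (univ : Finset V), put c w u ≤ G.degree u - 1 := by
      intro u _
      unfold put
      split_ifs with h
      · subst h; omega
      · exact hle u
    have heq : ∑ u, put c w u = ∑ u, (G.degree u - 1) := by rw [put_sum, h1]
    exact fun u => ((sum_eq_sum_iff_of_le hle').1 heq) u (mem_univ u)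
  obtain ⟨v, hv⟩ := exists_not_equiv G hc hT w
  refine ⟨v, fun c' hc' => ?_⟩
  have hfull : ∀ u, c' u = G.degree u - 1 := by
    have hle' : ∀ u ∈ (univ : Finset V), c' u ≤ G.degree u - 1 := fun u _ => by
      have := hc'.2 u; omega
    have heq : ∑ u, c' u = ∑ u, (G.degree u - 1) := by
      rw [stops_sum G hc'.1, put_sum, h1]
    exact fun u => ((sum_eq_sum_iff_of_le hle').1 heq) u (mem_univ u)
  obtain ⟨f, hf⟩ := stops_lap G hc'.1
  apply hv f
  intro u
  have e1 := hf u
  rw [hfull u, ← hput u] at e1
  have e2 : ((put c w u : ℕ) : ℤ) = c u + (if u = w then 1 else 0) := by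
    unfold put; split_ifs <;> simp
  have e3 : ((put c v u : ℕ) : ℤ) = c u + (if u = v then 1 else 0) := by
    unfold put; split_ifs <;> simp
  rw [e2, e3] at e1
  linarith

/-- If the configuration is not full, some token makes no vertex ready. -/
lemma can_go_on {c : V → ℕ} (hst : ∀ v, c v < G.degree v)
    (h1 : ∑ v, c v < ∑ v, (G.degree v - 1)) : ∃ v, Stops G (put c v) (put c v) := by
  obtain ⟨v, _, hv⟩ := exists_lt_of_sum_lt h1
  refine ⟨v, Relation.ReflTransGen.refl, fun u => ?_⟩
  unfold put
  split_ifs with h
  · subst h; omega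
  · exact hst u

/-- The values of all positions. -/
lemma values (hc : G.Connected) (hT : ¬ G.IsTree) (m : ℕ) : ∀ c : V → ℕ, (∀ v, c v < G.degree v) →
    ∑ v, c v + m = ∑ v, (G.degree v - 1) →
    (∃ n, Odd n ∧ AtLeast G n false c ∧ AtMost G n false c) ∧
    (1 ≤ m → ∃ n, Even n ∧ AtLeast G n true c ∧ AtMost G n true c) := by
  have hV : (univ : Finset V).Nonempty := by
    obtain ⟨x, _⟩ := exists_cycle_edge G hc hT
    exact ⟨x, mem_univ x⟩
  induction m with
  | zero =>
    intro c hst hm
    refine ⟨⟨1, odd_one, fun v => Or.inl rfl, ?_⟩, fun h => absurd h (by omega)⟩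
    obtain ⟨v, _⟩ := hV
    refine ⟨v, fun c' hc' => ?_⟩
    exfalso
    have e1 : ∑ u, c' u = ∑ v, c v + 1 := by rw [stops_sum G hc'.1, put_sum]
    have e2 : ∑ u, c' u ≤ ∑ u, (G.degree u - 1) := sum_le_sum fun u _ => by
      have := hc'.2 u; omega
    omega
  | succ m ih =>
    intro c hst hm
    have hnext : ∀ v c', Stops G (put c v) c' → ∑ u, c' u + m = ∑ v, (G.degree v - 1) := by
      intro v c' hc'
      rw [stops_sum G hc'.1, put_sum]
      omega
    constructor
    · by_cases hall : ∃ v, ∀ c', ¬ Stops G (put c v) c'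
      · obtain ⟨v, hv⟩ := hall
        exact ⟨1, odd_one, fun v => Or.inl rfl, ⟨v, fun c' hc' => absurd hc' (hv c')⟩⟩
      · push Not at hall
        have hm1 : 1 ≤ m := by
          by_contra h
          have : m = 0 := by omega
          subst this
          obtain ⟨v, hv⟩ := can_end G hc hT hst hm
          obtain ⟨c', hc'⟩ := hall v
          exact hv c' hc'
        choose d hd using hall
        have hval : ∀ v, ∃ n, Even n ∧ AtLeast G n true (d v) ∧ AtMost G n true (d v) := fun v =>
          (ih (d v) (hd v).2 (hnext v _ (hd v))).2 hm1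
        choose n hn1 hn2 hn3 using hval
        obtain ⟨v₀, _, hv₀⟩ := exists_min_image univ n hV
        refine ⟨n v₀ + 1, (hn1 v₀).add_one, fun v => Or.inr ⟨d v, hd v, ?_⟩, ⟨v₀, fun c' hc' => ?_⟩⟩
        · exact atLeast_le G (hv₀ v (mem_univ v)) (hn2 v)
        · rw [stops_unique G hc' (hd v₀)]
          exact hn3 v₀
    · intro _
      classical
      set A : Finset V := univ.filter fun v => ∃ c', Stops G (put c v) c' with hA
      have hAne : A.Nonempty := by
        obtain ⟨v, hv⟩ := can_go_on G hst (by omega)
        exact ⟨v, mem_filter.2 ⟨mem_univ _, _, hv⟩⟩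
      have hval : ∀ v, ∃ n, (∃ c', Stops G (put c v) c') → Odd n ∧
          ∃ c', Stops G (put c v) c' ∧ AtLeast G n false c' ∧ AtMost G n false c' := by
        intro v
        by_cases h : ∃ c', Stops G (put c v) c'
        · obtain ⟨c', hc'⟩ := h
          obtain ⟨n, h1, h2, h3⟩ := (ih c' hc'.2 (hnext v _ hc')).1
          exact ⟨n, fun _ => ⟨h1, c', hc', h2, h3⟩⟩
        · exact ⟨0, fun h' => absurd h' h⟩
      choose n hn using hval
      obtain ⟨v₀, hv₀A, hv₀⟩ := exists_max_image A n hAne
      obtain ⟨g1, c₀, g2, g3, g4⟩ := hn v₀ (mem_filter.1 hv₀A).2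
      refine ⟨n v₀ + 1, g1.add_one, ⟨v₀, Or.inr ⟨c₀, g2, g3⟩⟩, fun v c' hc' => ?_⟩
      have hvA : v ∈ A := mem_filter.2 ⟨mem_univ _, c', hc'⟩
      obtain ⟨_, c₁, f2, _, f4⟩ := hn v ⟨c', hc'⟩
      rw [stops_unique G hc' f2]
      exact atMost_le G (hv₀ v hvA) f4

/-- Let `G` be a finite connected graph which is not a tree. The toppling game has a value `a` when Max
starts and a value `b` when Min starts; `a` is even and `b` is odd, so `T_max(G) = a ≠ b = T_min(G)`. -/
theorem result {V : Type*} [Fintype V] [DecidableEq V] (G : SimpleGraph V) [DecidableRel G.Adj]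
    (hG : G.Connected) (hT : ¬ G.IsTree) :
    ∃ a b : ℕ, (∀ n, IsValue G true n ↔ n = a) ∧ (∀ n, IsValue G false n ↔ n = b) ∧
      Even a ∧ Odd b ∧ a ≠ b := by
  obtain ⟨x, y, hxy, p, hp⟩ := exists_cycle_edge G hG hT
  have : Nontrivial V := ⟨x, y, hxy.ne⟩
  have hpos : ∀ v, 0 < G.degree v := fun v => hG.preconnected.degree_pos_of_nontrivial v
  have hdeg : 2 ≤ G.degree x := by
    cases p with
    | nil => exact absurd rfl hxy.ne
    | @cons _ z _ hxz q =>
      have hzy : z ≠ y := by
        rintro rfl
        exact hp (by simp)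
      rw [← G.card_neighborFinset_eq_degree]
      have hsub : ({y, z} : Finset V) ⊆ G.neighborFinset x := by
        intro u hu
        rw [SimpleGraph.mem_neighborFinset]
        rcases mem_insert.1 hu with h | h
        · rw [h]; exact hxy
        · rw [mem_singleton.1 h]; exact hxz
      calc 2 = ({y, z} : Finset V).card := (card_pair hzy.symm).symm
        _ ≤ _ := card_le_card hsub
  have hK : 1 ≤ ∑ v, (G.degree v - 1) :=
    (by omega : 1 ≤ G.degree x - 1).trans
      (single_le_sum (f := fun v => G.degree v - 1) (fun _ _ => Nat.zero_le _) (mem_univ x))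
  obtain ⟨h1, h2⟩ := values G hG hT (∑ v, (G.degree v - 1)) (fun _ => 0) hpos (by simp)
  obtain ⟨b, hb1, hb2, hb3⟩ := h1
  obtain ⟨a, ha1, ha2, ha3⟩ := h2 hK
  refine ⟨a, b, fun n => ⟨fun h => value_unique G ha2 ha3 h.1 h.2, ?_⟩,
    fun n => ⟨fun h => value_unique G hb2 hb3 h.1 h.2, ?_⟩, ha1, hb1, ?_⟩
  · rintro rfl; exact ⟨ha2, ha3⟩
  · rintro rfl; exact ⟨hb2, hb3⟩
  · rintro rfl
    exact (Nat.not_even_iff_odd.2 hb1) ha1

end Pool.Agent.Results.MP_424b19_co.ParityOfTopplingGame
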